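import Pool.Agent.H3R4.LD.Suslin

/-!
# The nodes of a coherent Suslin tree, with the topology generated by the cones and their
complements, form an L-space with a D-separable square
-/

set_option autoImplicit false

namespace Pool.Agent.H3R4.LD

open Set Topology TopologicalSpace
open Pool.Agent.Helper292.ForceCH (Om countable_Iio exists_bound ub lt_ub ub_le)

/-- `X` is D-separable: for all dense sets `D n` there are discrete sets `F n ⊆ D n` whose union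
is dense. -/
def DSeparable (X : Type) [TopologicalSpace X] : Prop :=
  ∀ D : ℕ → Set X, (∀ n, Dense (D n)) →
    ∃ F : ℕ → Set X, (∀ n, F n ⊆ D n ∧ DiscreteTopology (F n)) ∧ Dense (⋃ n, F n)

/-- the space of nodes -/
def Sp (_f : Om → Om → ℤ) : Type := Node

open Classical in
/-- the characteristic functions of the sets of predecessors -/
noncomputable def chi (f : Om → Om → ℤ) (x : Sp f) (p : Node) : Bool := decide (le f p x)

noncomputable instance (f : Om → Om → ℤ) : TopologicalSpace (Sp f) :=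
  TopologicalSpace.induced (chi f) inferInstance

variable {f : Om → Om → ℤ}

lemma chi_eq {x y : Sp f} {p : Node} : chi f x p = chi f y p ↔ (le f p x ↔ le f p y) := by
  classical
  unfold chi
  rw [decide_eq_decide]

lemma isEmbedding_chi : IsEmbedding (chi f) := by
  refine ⟨⟨rfl⟩, fun x y h => ?_⟩
  have h1 : le f x y := (chi_eq.1 (congrFun h x)).1 (le_refl _)
  have h2 : le f y x := (chi_eq.1 (congrFun h y)).2 (le_refl _)
  exact eq_of_le h1 (le_antisymm h1.1 h2.1)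

instance : T35Space (Sp f) := isEmbedding_chi.t35Space

/-- the cone of a node -/
def cone (f : Om → Om → ℤ) (p : Node) : Set (Sp f) := {y | le f p y}

lemma isOpen_cone (p : Node) : IsOpen (cone f p) := by
  have h1 : IsOpen {g : Node → Bool | g p = true} :=
    (isOpen_discrete ({true} : Set Bool)).preimage (continuous_apply (A := fun _ : Node => Bool) p)
  have h2 : cone f p = chi f ⁻¹' {g : Node → Bool | g p = true} := by
    classical
    ext y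
    show le f p y ↔ chi f y p = true
    unfold chi
    rw [decide_eq_true_iff]
  rw [h2]
  exact h1.preimage isEmbedding_chi.continuous

lemma exists_finset {U : Set (Sp f)} (hU : IsOpen U) {x : Sp f} (hx : x ∈ U) :
    ∃ I : Finset Node, ∀ y : Sp f, (∀ p ∈ I, le f p y ↔ le f p x) → y ∈ U := by
  obtain ⟨V, hV, rfl⟩ := isOpen_induced_iff.1 hU
  obtain ⟨I, u, h1, h2⟩ := isOpen_pi_iff.1 hV _ hx
  refine ⟨I, fun y hy => h2 fun p hp => ?_⟩
  have h3 : chi f y p = chi f x p := chi_eq.2 (hy p hp)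
  rw [h3]
  exact (h1 p hp).2

lemma exists_node_ge (hc : ∀ α, ∀ β < α, {ξ | ξ < β ∧ f α ξ ≠ f β ξ}.Finite) (x : Node) (m : ℤ)
    {γ : Om} (hγ : x.lv < γ) : ∃ u : Node, u.lv = γ ∧ le f x u ∧ val f u x.lv = m := by
  classical
  have h : {ξ | ξ < γ ∧ (if ξ < x.lv then val f x ξ else if ξ = x.lv then m else f γ ξ) ≠
      f γ ξ}.Finite := by
    refine (((val_finite (f := f) x).union (hc γ x.lv hγ)).union
      (finite_singleton x.lv)).subset ?_
    rintro ξ ⟨h2, h3⟩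
    by_cases h4 : ξ < x.lv
    · rw [if_pos h4] at h3
      by_cases h5 : val f x ξ = f x.lv ξ
      · left; right
        rw [h5] at h3
        exact ⟨h4, fun h6 => h3 h6.symm⟩
      · exact Or.inl (Or.inl ⟨h4, h5⟩)
    · by_cases h5 : ξ = x.lv
      · exact Or.inr h5
      · rw [if_neg h4, if_neg h5] at h3
        exact absurd rfl h3
  obtain ⟨u, hu1, hu2⟩ := exists_node h
  refine ⟨u, hu1, ⟨hu1.symm ▸ hγ.le, fun ξ hξ => ?_⟩, ?_⟩
  · rw [hu2 ξ (hξ.trans hγ), if_pos hξ]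
  · rw [hu2 _ hγ, if_neg (lt_irrefl _), if_pos rfl]

/-- every neighbourhood of `x` contains the cone of some `u ≥ x` -/
lemma exists_cone (hc : ∀ α, ∀ β < α, {ξ | ξ < β ∧ f α ξ ≠ f β ξ}.Finite) {U : Set (Sp f)}
    (hU : IsOpen U) {x : Sp f} (hx : x ∈ U) : ∃ u : Node, le f x u ∧ cone f u ⊆ U := by
  classical
  obtain ⟨I, hI⟩ := exists_finset hU hx
  let x' : Node := x
  obtain ⟨m, hm⟩ := Infinite.exists_notMem_finset (I.image fun p => val f p x'.lv)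
  obtain ⟨γ, hγ⟩ := exists_bound (fun _ => x'.lv)
  obtain ⟨u, hu1, hu2, hu3⟩ := exists_node_ge hc x' m (hγ 0)
  refine ⟨u, hu2, fun y hy => hI y fun p hp => ⟨fun h => ?_, fun h => ?_⟩⟩
  · have hxy : le f x' y := le_trans hu2 hy
    rcases le_or_gt p.lv x'.lv with h1 | h1
    · exact le_of_lv_le h hxy h1
    · exfalso
      apply hm
      rw [Finset.mem_image]
      refine ⟨p, hp, ?_⟩
      rw [h.2 _ h1, ← hu3]
      exact ((hy : le f u y).2 x'.lv (hu1.symm ▸ hγ 0)).symm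
  · exact le_trans (le_trans h hu2) hy

lemma not_separable : ¬ SeparableSpace (Sp f) := by
  rintro ⟨D, hD, hd⟩
  obtain ⟨b, hb⟩ := exists_ub (hD.image fun x : Sp f => Node.lv x)
  obtain ⟨u, hu, -⟩ := exists_node (f := f) (α := b) (g := f b) (by simp)
  obtain ⟨y, hy1, hy2⟩ := hd.inter_open_nonempty (cone f u) (isOpen_cone u) ⟨u, le_refl u⟩
  have h1 : u.lv ≤ Node.lv y := (hy1 : le f u y).1
  have h2 := hb _ ⟨y, hy2, rfl⟩
  rw [hu] at h1
  exact absurd h2 (not_lt.2 h1)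

lemma hereditarilyLindelof (hc : ∀ α, ∀ β < α, {ξ | ξ < β ∧ f α ξ ≠ f β ξ}.Finite)
    (hS : ∀ S : Set Node, (∀ s ∈ S, ∀ t ∈ S, le f s t → s = t) → S.Countable) :
    HereditarilyLindelofSpace (Sp f) := by
  classical
  refine ⟨fun s _ => isLindelof_of_countable_subcover fun {ι} U hU hsU => ?_⟩
  let G : Set Node := {u | ∃ i, cone f u ⊆ U i}
  let A : Set Node := {u | u ∈ G ∧ ∀ v ∈ G, le f v u → v = u}
  have hA : A.Countable := hS A fun s hs t ht h => ht.2 s hs.1 h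
  have hmin : ∀ u ∈ G, ∃ a ∈ A, le f a u := by
    intro u hu
    have hwf : WellFounded (fun x y : Om => x < y) := wellFounded_lt
    have hne : ((fun v : Node => v.lv) '' {v | v ∈ G ∧ le f v u}).Nonempty :=
      ⟨_, u, ⟨hu, le_refl u⟩, rfl⟩
    obtain ⟨_, ⟨v, ⟨hv1, hv2⟩, rfl⟩, hv3⟩ := hwf.has_min _ hne
    refine ⟨v, ⟨hv1, fun w hw hwv => ?_⟩, hv2⟩
    have h1 : ¬ w.lv < v.lv := hv3 _ ⟨w, ⟨hw, le_trans hwv hv2⟩, rfl⟩
    exact eq_of_le hwv (le_antisymm hwv.1 (not_lt.1 h1))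
  have hAi : ∀ a : Node, ∃ i : Option ι, a ∈ A → ∃ j, i = some j ∧ cone f a ⊆ U j := by
    intro a
    by_cases h : a ∈ A
    · obtain ⟨j, hj⟩ := h.1
      exact ⟨some j, fun _ => ⟨j, rfl, hj⟩⟩
    · exact ⟨none, fun h' => absurd h' h⟩
  choose i hi using hAi
  obtain ⟨γ, hγ⟩ := exists_ub (hA.image fun a => a.lv)
  let R : Set Node := {x | x ∈ s ∧ ∀ a ∈ A, ¬ le f a x}
  have hR : R.Countable := by
    refine (countable_level γ).mono ?_
    rintro x ⟨hx1, hx2⟩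
    obtain ⟨j, hj⟩ := mem_iUnion.1 (hsU hx1)
    obtain ⟨u, hu1, hu2⟩ := exists_cone hc (hU j) hj
    obtain ⟨a, ha, hau⟩ := hmin u ⟨j, hu2⟩
    have h1 : ¬ a.lv ≤ x.lv := fun h => hx2 a ha (le_of_lv_le hau hu1 h)
    exact (not_le.1 h1).trans (hγ _ ⟨a, ha, rfl⟩)
  have hRi : ∀ x : Node, ∃ i : Option ι, x ∈ s → ∃ j, i = some j ∧ x ∈ U j := by
    intro x
    by_cases h : x ∈ s
    · obtain ⟨j, hj⟩ := mem_iUnion.1 (hsU h)
      exact ⟨some j, fun _ => ⟨j, rfl, hj⟩⟩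
    · exact ⟨none, fun h' => absurd h' h⟩
  choose k hk using hRi
  refine ⟨{j | some j ∈ i '' A ∪ k '' R}, ?_, fun x hx => ?_⟩
  · exact ((hA.image i).union (hR.image k)).preimage (Option.some_injective ι)
  · by_cases h : ∃ a ∈ A, le f a x
    · obtain ⟨a, ha, hax⟩ := h
      obtain ⟨j, hj1, hj2⟩ := hi a ha
      exact mem_iUnion₂.2 ⟨j, Or.inl ⟨a, ha, hj1⟩, hj2 hax⟩
    · push Not at h
      obtain ⟨j, hj1, hj2⟩ := hk x hx
      exact mem_iUnion₂.2 ⟨j, Or.inr ⟨x, ⟨hx, h⟩, hj1⟩, hj2⟩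

/-- the set of the places where two nodes differ -/
def dif (f : Om → Om → ℤ) (s t : Node) : Set Om := {ξ | ξ < s.lv ∧ val f s ξ ≠ val f t ξ}

/-- the pairs of nodes of the same level which differ at exactly `n` places, including the last
place -/
def Pn (f : Om → Om → ℤ) (n : ℕ) : Set (Node × Node) :=
  {q | q.1.lv = q.2.lv ∧ (dif f q.1 q.2).Finite ∧ (dif f q.1 q.2).ncard = n ∧
    ∃ γ < q.1.lv, (∀ β < q.1.lv, β ≤ γ) ∧ val f q.1 γ ≠ val f q.2 γ}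

lemma Pn_lv {n : ℕ} {p q : Node × Node} (hp : p ∈ Pn f n) (hq : q ∈ Pn f n) {x y : Node}
    (h1 : le f p.1 x) (h2 : le f q.1 x) (h3 : le f p.2 y) (h4 : le f q.2 y) :
    ¬ p.1.lv < q.1.lv := by
  intro hlt
  obtain ⟨a1, a2, a3, -⟩ := hp
  obtain ⟨b1, b2, b3, γ, hγ1, hγ2, hγ3⟩ := hq
  have h5 : insert γ (dif f p.1 p.2) ⊆ dif f q.1 q.2 := by
    rintro ξ (rfl | ⟨h6, h7⟩)
    · exact ⟨hγ1, hγ3⟩
    · have h8 : ξ < q.1.lv := h6.trans hlt
      refine ⟨h8, ?_⟩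
      rw [h2.2 ξ h8, h4.2 ξ (b1 ▸ h8), ← h1.2 ξ h6, ← h3.2 ξ (a1 ▸ h6)]
      exact h7
  have h6 : γ ∉ dif f p.1 p.2 := fun h => absurd h.1 (not_lt.2 (hγ2 _ hlt))
  have h7 := ncard_le_ncard h5 b2
  rw [ncard_insert_of_notMem h6 a2, a3, b3] at h7
  omega

lemma Pn_eq {n : ℕ} {p q : Node × Node} (hp : p ∈ Pn f n) (hq : q ∈ Pn f n) {x y : Node}
    (h1 : le f p.1 x) (h2 : le f q.1 x) (h3 : le f p.2 y) (h4 : le f q.2 y) : p = q := by
  have h5 : p.1.lv = q.1.lv := le_antisymm (not_lt.1 (Pn_lv hq hp h2 h1 h4 h3))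
    (not_lt.1 (Pn_lv hp hq h1 h2 h3 h4))
  have h6 : p.1 = q.1 := eq_of_le (le_of_lv_le h1 h2 h5.le) h5
  have h7 : p.2.lv = q.2.lv := by rw [← hp.1, ← hq.1, h5]
  have h8 : p.2 = q.2 := eq_of_le (le_of_lv_le h3 h4 h7.le) h7
  exact Prod.ext h6 h8

lemma exists_Pn (hc : ∀ α, ∀ β < α, {ξ | ξ < β ∧ f α ξ ≠ f β ξ}.Finite) (u v : Node) :
    ∃ n, ∃ q ∈ Pn f n, le f u q.1 ∧ le f v q.2 := by
  classical
  obtain ⟨γ, hγ⟩ := exists_bound (fun n => if n = 0 then u.lv else v.lv)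
  have hγu : u.lv < γ := by simpa using hγ 0
  have hγv : v.lv < γ := by simpa using hγ 1
  obtain ⟨u1, hu1, hu2, -⟩ := exists_node_ge hc u 0 hγu
  obtain ⟨v1, hv1, hv2, -⟩ := exists_node_ge hc v 0 hγv
  -- the successor of `γ`
  have hwf : WellFounded (fun x y : Om => x < y) := wellFounded_lt
  have hne : (Ioi γ).Nonempty := by
    obtain ⟨δ, hδ⟩ := exists_bound (fun _ => γ)
    exact ⟨δ, hδ 0⟩
  obtain ⟨l, hl1, hl2⟩ : ∃ l, γ < l ∧ ∀ β < l, β ≤ γ := by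
    obtain ⟨l, h1, h2⟩ := hwf.has_min _ hne
    refine ⟨l, h1, fun β hβ => ?_⟩
    by_contra hcon
    exact h2 β (not_le.1 hcon) hβ
  obtain ⟨u2, hu3, hu4, hu5⟩ := exists_node_ge hc u1 0 (hu1.symm ▸ hl1)
  obtain ⟨v2, hv3, hv4, hv5⟩ := exists_node_ge hc v1 1 (hv1.symm ▸ hl1)
  have hfin : (dif f u2 v2).Finite := by
    refine ((val_finite (f := f) u2).union (val_finite (f := f) v2)).subset ?_
    rintro ξ ⟨h1, h2⟩
    by_cases h3 : val f u2 ξ = f u2.lv ξ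
    · right
      refine ⟨by rw [hv3, ← hu3]; exact h1, fun h4 => h2 ?_⟩
      rw [h3, h4, hu3, hv3]
    · exact Or.inl ⟨h1, h3⟩
  refine ⟨(dif f u2 v2).ncard, (u2, v2), ⟨hu3.trans hv3.symm, hfin, rfl, γ, hu3.symm ▸ hl1,
    fun β hβ => hl2 β (hu3 ▸ hβ), ?_⟩, le_trans hu2 hu4, le_trans hv2 hv4⟩
  rw [hu1] at hu5
  rw [hv1] at hv5
  show val f u2 γ ≠ val f v2 γ
  rw [hu5, hv5]
  exact zero_ne_one

theorem dSeparable_sq (hc : ∀ α, ∀ β < α, {ξ | ξ < β ∧ f α ξ ≠ f β ξ}.Finite) :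
    DSeparable (Sp f × Sp f) := by
  intro D hD
  have hpick : ∀ (n : ℕ) (q : Node × Node), ∃ z : Sp f × Sp f, z ∈ D n ∧
      le f q.1 z.1 ∧ le f q.2 z.2 := by
    intro n q
    obtain ⟨z, hz1, hz2⟩ := (hD n).inter_open_nonempty (cone f q.1 ×ˢ cone f q.2)
      ((isOpen_cone _).prod (isOpen_cone _)) ⟨(q.1, q.2), le_refl _, le_refl _⟩
    exact ⟨z, hz2, hz1.1, hz1.2⟩
  choose z hz1 hz2 hz3 using hpick
  refine ⟨fun n => z n '' Pn f n, fun n => ⟨?_, ?_⟩, ?_⟩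
  · rintro _ ⟨q, _, rfl⟩
    exact hz1 n q
  · rw [discreteTopology_subtype_iff']
    rintro _ ⟨q, hq, rfl⟩
    refine ⟨cone f q.1 ×ˢ cone f q.2, (isOpen_cone _).prod (isOpen_cone _), ?_⟩
    ext w
    simp only [mem_inter_iff, mem_singleton_iff]
    constructor
    · rintro ⟨⟨h1, h2⟩, q', hq', rfl⟩
      rw [Pn_eq hq hq' h1 (hz2 n q') h2 (hz3 n q')]
    · rintro rfl
      exact ⟨⟨hz2 n q, hz3 n q⟩, q, hq, rfl⟩
  · rw [dense_iff_inter_open]
    rintro W hW ⟨⟨x, y⟩, hxy⟩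
    obtain ⟨U, V, hU, hV, hxU, hyV, hUV⟩ := isOpen_prod_iff.1 hW x y hxy
    obtain ⟨u, hu1, hu2⟩ := exists_cone hc hU hxU
    obtain ⟨v, hv1, hv2⟩ := exists_cone hc hV hyV
    obtain ⟨n, q, hq, h1, h2⟩ := exists_Pn hc u v
    refine ⟨z n q, hUV ⟨hu2 ?_, hv2 ?_⟩, mem_iUnion.2 ⟨n, q, hq, rfl⟩⟩
    · exact le_trans h1 (hz2 n q)
    · exact le_trans h2 (hz3 n q)

end Pool.Agent.H3R4.LD
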