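import Pool.Agent.H3R4.LD.Tree

/-!
# The recursive construction of the tree and the Suslin property
-/

set_option autoImplicit false

namespace Pool.Agent.H3R4.LD

open Set
open Pool.Agent.Helper292.ForceCH (Om countable_Iio exists_bound ub lt_ub ub_le)

/-- every node below `α` has an extension below `α` which extends an element of `D` -/
def DenseB (f : Om → Om → ℤ) (α : Om) (D : Set Node) : Prop :=
  ∀ p : Node, p.lv < α → ∃ q d : Node, q.lv < α ∧ le f p q ∧ d ∈ D ∧ le f d q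

/-- the requirements on `h = f α` -/
def Req (𝒜 : Om → Set Node) (f : Om → Om → ℤ) (α : Om) (h : Om → ℤ) : Prop :=
  (∀ β < α, {ξ | ξ < β ∧ h ξ ≠ f β ξ}.Finite) ∧
    ((∃ β, β < α) → DenseB f α (𝒜 α) →
      ∀ c : Om →₀ ℤ, ∃ d ∈ 𝒜 α, d.lv < α ∧ ∀ ξ < d.lv, val f d ξ = h ξ + c ξ)

lemma exists_req (𝒜 : Om → Set Node) {f : Om → Om → ℤ} {α : Om} (hc : CohB f α) :
    ∃ h, Req 𝒜 f α h := by
  by_cases hα : ∃ β, β < α
  · by_cases hD : DenseB f α (𝒜 α)
    · obtain ⟨h, h1, h2⟩ := exists_limit hα hc (𝒜 α) hD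
      exact ⟨h, h1, fun _ _ => h2⟩
    · obtain ⟨h, h1, -⟩ := exists_limit hα hc Set.univ
        (fun p hp => ⟨p, p, hp, le_refl p, trivial, le_refl p⟩)
      exact ⟨h, h1, fun _ h3 => absurd h3 hD⟩
  · exact ⟨0, fun β hβ => absurd ⟨β, hβ⟩ hα, fun h => absurd h hα⟩

lemma val_congr {f f' : Om → Om → ℤ} {α : Om} (h : ∀ β < α, f β = f' β) {p : Node}
    (hp : p.lv < α) (ξ : Om) : val f p ξ = val f' p ξ := by
  rw [val, val, h _ hp]

lemma le_congr {f f' : Om → Om → ℤ} {α : Om} (h : ∀ β < α, f β = f' β) {p q : Node}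
    (hp : p.lv < α) (hq : q.lv < α) (hle : le f p q) : le f' p q :=
  ⟨hle.1, fun ξ hξ => by rw [← val_congr h hp, ← val_congr h hq]; exact hle.2 ξ hξ⟩

lemma DenseB.congr {f f' : Om → Om → ℤ} {α : Om} (h : ∀ β < α, f β = f' β) {D : Set Node}
    (hd : DenseB f α D) : DenseB f' α D := by
  intro p hp
  obtain ⟨q, d, h1, h2, h3, h4⟩ := hd p hp
  exact ⟨q, d, h1, le_congr h hp h1 h2, h3, le_congr h (h4.1.trans_lt h1) h1 h4⟩

lemma Req.congr {𝒜 : Om → Set Node} {f f' : Om → Om → ℤ} {α : Om} (h : ∀ β < α, f β = f' β)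
    {g : Om → ℤ} (hr : Req 𝒜 f α g) : Req 𝒜 f' α g := by
  refine ⟨fun β hβ => ?_, fun hα hD c => ?_⟩
  · rw [← h β hβ]; exact hr.1 β hβ
  · obtain ⟨d, h1, h2, h3⟩ := hr.2 hα (hD.congr fun β hβ => (h β hβ).symm) c
    exact ⟨d, h1, h2, fun ξ hξ => by rw [← val_congr h h2]; exact h3 ξ hξ⟩

theorem exists_tree (𝒜 : Om → Set Node) : ∃ f : Om → Om → ℤ, ∀ α, Req 𝒜 f α (f α) := by
  classical
  let F : (α : Om) → ((β : Om) → β < α → (Om → ℤ)) → (Om → ℤ) := fun α g =>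
    if h : ∃ h, Req 𝒜 (fun β => if hβ : β < α then g β hβ else 0) α h then h.choose else 0
  let wf : WellFounded (fun x y : Om => x < y) := wellFounded_lt
  let f : Om → Om → ℤ := wf.fix F
  have hf : ∀ α, f α = F α (fun β _ => f β) := fun α => wf.fix_eq F α
  have hcong : ∀ α, ∀ β < α, (fun β => if β < α then f β else 0) β = f β := by
    intro α β hβ
    exact if_pos hβ
  refine ⟨f, fun α => ?_⟩
  induction α using wf.induction with
  | h α ih =>
    have hc : CohB f α := fun β hβ γ hγ => (ih β hβ).1 γ hγ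
    obtain ⟨h, hh⟩ := exists_req 𝒜 hc
    have h1 : ∃ h, Req 𝒜 (fun β => if β < α then f β else 0) α h :=
      ⟨h, hh.congr fun β hβ => (hcong α β hβ).symm⟩
    have h2 : f α = h1.choose := by
      rw [hf α]
      exact dif_pos h1
    rw [h2]
    exact h1.choose_spec.congr (hcong α)

/-- `C` is a closed unbounded subset of `ω₁`. -/
def IsClubSet (C : Set Om) : Prop :=
  (∀ a, ∃ b, a < b ∧ b ∈ C) ∧
    ∀ a, (∃ b, b < a) → (∀ b, b < a → ∃ c, (b < c ∧ c < a) ∧ c ∈ C) → a ∈ C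

/-- Jensen's principle diamond. -/
def Diamond : Prop :=
  ∃ A : Om → Set Om, ∀ S C : Set Om, IsClubSet C → ∃ a ∈ C, ∀ b < a, (b ∈ S ↔ b ∈ A a)

lemma exists_ub {S : Set Om} (hS : S.Countable) : ∃ b, ∀ a ∈ S, a < b := by
  rcases S.eq_empty_or_nonempty with rfl | hne
  · exact ⟨Classical.arbitrary Om, by simp⟩
  · obtain ⟨g, rfl⟩ := hS.exists_eq_range hne
    obtain ⟨b, hb⟩ := exists_bound g
    exact ⟨b, by rintro _ ⟨n, rfl⟩; exact hb n⟩

lemma countable_Iic' (β : Om) : (Iic β).Countable := by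
  rw [← Iio_insert]
  exact (Set.countable_coe_iff.1 (countable_Iio β)).insert β

/-- the closure points of a function form a closed unbounded set -/
lemma club_closure (G : Om → Om) : IsClubSet {α | (∃ β, β < α) ∧ ∀ β < α, G β < α} := by
  refine ⟨fun a => ?_, fun a ha h => ⟨ha, fun β hβ => ?_⟩⟩
  · -- a majorant
    have h1 : ∀ β : Om, ∃ γ, β < γ ∧ ∀ δ ≤ β, G δ < γ := by
      intro β
      obtain ⟨b, hb⟩ := exists_ub (((countable_Iic' β).image G).union (countable_singleton β))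
      exact ⟨b, hb _ (Or.inr rfl), fun δ hδ => hb _ (Or.inl ⟨δ, hδ, rfl⟩)⟩
    choose H hH1 hH2 using h1
    let s : ℕ → Om := fun n => H^[n] a
    have hs : ∀ n, s (n + 1) = H (s n) := fun n => Function.iterate_succ_apply' H n a
    refine ⟨ub s, lt_ub s 0, ⟨s 0, lt_ub s 0⟩, fun β hβ => ?_⟩
    obtain ⟨n, hn⟩ := ub_le s hβ
    refine (hH2 (s n) β hn).trans ?_
    rw [← hs n]
    exact lt_ub s (n + 1)
  · obtain ⟨c, ⟨h1, h2⟩, h3⟩ := h β hβ
    exact (h3.2 β h1).trans h2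

/-- diamond for sets of nodes -/
theorem diamond_node (hD : Diamond) : ∃ 𝒜 : Om → Set Node, ∀ (S : Set Node) (F : Om → Om),
    ∃ α, (∃ β, β < α) ∧ (∀ β < α, F β < α) ∧ ∀ p : Node, p.lv < α → (p ∈ S ↔ p ∈ 𝒜 α) := by
  obtain ⟨A, hA⟩ := hD
  obtain ⟨e, he⟩ : ∃ e : Node → Om, Function.Injective e := by
    have h1 : Function.Injective (fun p : Node => (p.lv, p.c)) := by
      rintro ⟨a, c, hc⟩ ⟨b, d, hd⟩ h
      simp only [Prod.mk.injEq] at h
      obtain ⟨rfl, rfl⟩ := h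
      rfl
    have h2 : Cardinal.mk Om = Cardinal.aleph 1 := by simp
    have h0 : Infinite Om := by
      rw [Cardinal.infinite_iff, h2]; exact Cardinal.aleph0_le_aleph 1
    have h3 : Cardinal.mk (Om × (Om →₀ ℤ)) ≤ Cardinal.mk Om := by
      rw [Cardinal.mk_prod, Cardinal.lift_id, Cardinal.lift_id, Cardinal.mk_finsupp_of_infinite,
        h2, Cardinal.mk_int, max_eq_left (Cardinal.aleph0_le_aleph 1),
        Cardinal.mul_eq_self (Cardinal.aleph0_le_aleph 1)]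
    obtain ⟨g⟩ := Cardinal.le_def _ _ |>.1 h3
    exact ⟨fun p => g (p.lv, p.c), g.injective.comp h1⟩
  refine ⟨fun α => {p | e p ∈ A α}, fun S F => ?_⟩
  have h1 : ∀ β : Om, ∃ γ, F β < γ ∧ ∀ p : Node, p.lv ≤ β → e p < γ := by
    intro β
    obtain ⟨b, hb⟩ := exists_bound (fun _ => β)
    have h2 : {p : Node | p.lv ≤ β}.Countable :=
      (countable_level b).mono fun p hp => lt_of_le_of_lt hp (hb 0)
    obtain ⟨γ, hγ⟩ := exists_ub ((h2.image e).union (countable_singleton (F β)))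
    exact ⟨γ, hγ _ (Or.inr rfl), fun p hp => hγ _ (Or.inl ⟨p, hp, rfl⟩)⟩
  choose G hG1 hG2 using h1
  obtain ⟨α, ⟨hα1, hα2⟩, hα3⟩ := hA (e '' S) _ (club_closure G)
  refine ⟨α, hα1, fun β hβ => (hG1 β).trans (hα2 β hβ), fun p hp => ?_⟩
  rw [mem_ofPred_eq, ← hα3 (e p) ((hG2 p.lv p le_rfl).trans (hα2 _ hp))]
  exact (he.mem_set_image).symm

variable {f : Om → Om → ℤ}

/-- restriction of a node to a lower level -/
lemma exists_restrict (hc : ∀ α, ∀ β < α, {ξ | ξ < β ∧ f α ξ ≠ f β ξ}.Finite) (p : Node) {α : Om}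
    (h : α ≤ p.lv) : ∃ q : Node, q.lv = α ∧ le f q p := by
  have h1 : {ξ | ξ < α ∧ val f p ξ ≠ f α ξ}.Finite := by
    rcases h.eq_or_lt with h1 | h1
    · rw [h1]; exact val_finite (f := f) p
    · refine ((val_finite (f := f) p).union (hc p.lv α h1)).subset ?_
      rintro ξ ⟨h2, h3⟩
      by_cases h4 : val f p ξ = f p.lv ξ
      · right; rw [h4] at h3; exact ⟨h2, h3⟩
      · exact Or.inl ⟨h2.trans h1, h4⟩
  obtain ⟨q, h2, h3⟩ := exists_node h1
  exact ⟨q, h2, h2.symm ▸ h, fun ξ hξ => h3 ξ (h2 ▸ hξ)⟩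

/-- the Suslin property -/
theorem exists_suslin (hD : Diamond) : ∃ f : Om → Om → ℤ,
    (∀ α, ∀ β < α, {ξ | ξ < β ∧ f α ξ ≠ f β ξ}.Finite) ∧
    ∀ S : Set Node, (∀ s ∈ S, ∀ t ∈ S, le f s t → s = t) → S.Countable := by
  obtain ⟨𝒜, h𝒜⟩ := diamond_node hD
  obtain ⟨f, hf⟩ := exists_tree 𝒜
  have hc : ∀ α, ∀ β < α, {ξ | ξ < β ∧ f α ξ ≠ f β ξ}.Finite := fun α => (hf α).1
  refine ⟨f, hc, fun S hS => ?_⟩
  let S' : Set Node := S ∪ {p | ∀ s ∈ S, ∀ q, le f p q → ¬ le f s q}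
  have h1 : ∀ p : Node, ∃ q d : Node, le f p q ∧ d ∈ S' ∧ le f d q := by
    intro p
    by_cases h : ∀ s ∈ S, ∀ q, le f p q → ¬ le f s q
    · exact ⟨p, p, le_refl p, Or.inr h, le_refl p⟩
    · push Not at h
      obtain ⟨s, hs, q, h2, h3⟩ := h
      exact ⟨q, s, h2, Or.inl hs, h3⟩
  choose Q d hQ hd hdQ using h1
  have h2 : ∀ β : Om, ∃ γ, ∀ p : Node, p.lv ≤ β → (Q p).lv < γ := by
    intro β
    obtain ⟨b, hb⟩ := exists_bound (fun _ => β)
    have h2 : {p : Node | p.lv ≤ β}.Countable :=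
      (countable_level b).mono fun p hp => lt_of_le_of_lt hp (hb 0)
    obtain ⟨γ, hγ⟩ := exists_ub (h2.image fun p => (Q p).lv)
    exact ⟨γ, fun p hp => hγ _ ⟨p, hp, rfl⟩⟩
  choose F hF using h2
  obtain ⟨α, hα1, hα2, hα3⟩ := h𝒜 S' F
  have hdense : DenseB f α (𝒜 α) := by
    intro p hp
    have h3 : (Q p).lv < α := (hF p.lv p le_rfl).trans (hα2 _ hp)
    exact ⟨Q p, d p, h3, hQ p, (hα3 _ ((hdQ p).1.trans_lt h3)).1 (hd p), hdQ p⟩
  have h4 := (hf α).2 hα1 hdense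
  refine (countable_level α).mono fun s hs => ?_
  by_contra hcon
  obtain ⟨p, hp1, hp2⟩ := exists_restrict hc s (not_lt.1 hcon)
  obtain ⟨t, ht1, ht2, ht3⟩ := h4 p.c
  have h5 : le f t s := by
    refine le_trans (q := p) ⟨hp1.symm ▸ ht2.le, fun ξ hξ => ?_⟩ hp2
    rw [ht3 ξ hξ, val, hp1]
  rcases (hα3 t ht2).2 ht1 with h6 | h6
  · have h7 := hS t h6 s hs h5
    subst h7
    exact hcon ht2
  · exact h6 s hs s h5 (le_refl s)

end Pool.Agent.H3R4.LD
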