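import Mathlib
import Pool.Agent.Helper292.ForceCH

/-!
# A coherent Suslin tree from diamond

The nodes are functions from countable ordinals to the integers; the tree is coherent and closed
under finite modifications.
-/

set_option autoImplicit false

namespace Pool.Agent.H3R4.LD

open Set
open Pool.Agent.Helper292.ForceCH (Om countable_Iio exists_bound ub lt_ub ub_le)

/-- a node of level `lv`: the finite modification `c` of a given function on the ordinals
below `lv` -/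
structure Node where
  /-- the level -/
  lv : Om
  /-- the modification -/
  c : Om →₀ ℤ
  supp : ∀ ξ ∈ c.support, ξ < lv

lemma Node.c_eq_zero (p : Node) {ξ : Om} (h : ¬ ξ < p.lv) : p.c ξ = 0 := by
  by_contra hne
  exact h (p.supp ξ (Finsupp.mem_support_iff.2 hne))

variable (f : Om → Om → ℤ)

/-- the value of a node at `ξ` -/
def val (p : Node) (ξ : Om) : ℤ := f p.lv ξ + p.c ξ

/-- the tree order: extension of functions -/
def le (p q : Node) : Prop := p.lv ≤ q.lv ∧ ∀ ξ < p.lv, val f p ξ = val f q ξ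

variable {f}

lemma le_refl (p : Node) : le f p p := ⟨le_rfl, fun _ _ => rfl⟩

lemma le_trans {p q r : Node} (h : le f p q) (h' : le f q r) : le f p r :=
  ⟨h.1.trans h'.1, fun ξ hξ => (h.2 ξ hξ).trans (h'.2 ξ (hξ.trans_le h.1))⟩

lemma eq_of_le {p q : Node} (h : le f p q) (hl : p.lv = q.lv) : p = q := by
  obtain ⟨a, c, hc⟩ := p
  obtain ⟨b, d, hd⟩ := q
  obtain rfl : a = b := hl
  have : c = d := by
    ext ξ
    by_cases hξ : ξ < a
    · have h1 := h.2 ξ hξ
      simp only [val] at h1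
      exact add_left_cancel h1
    · have h1 := Node.c_eq_zero ⟨a, c, hc⟩ hξ
      have h2 := Node.c_eq_zero ⟨a, d, hd⟩ hξ
      simp only at h1 h2
      rw [h1, h2]
  subst this
  rfl

/-- predecessors of a node are comparable -/
lemma le_of_lv_le {p q r : Node} (hp : le f p r) (hq : le f q r) (h : p.lv ≤ q.lv) : le f p q :=
  ⟨h, fun ξ hξ => (hp.2 ξ hξ).trans (hq.2 ξ (hξ.trans_le h)).symm⟩

lemma exists_node {α : Om} {g : Om → ℤ} (h : {ξ | ξ < α ∧ g ξ ≠ f α ξ}.Finite) :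
    ∃ p : Node, p.lv = α ∧ ∀ ξ < α, val f p ξ = g ξ := by
  classical
  refine ⟨⟨α, Finsupp.onFinset h.toFinset (fun ξ => if ξ < α then g ξ - f α ξ else 0) ?_, ?_⟩, rfl,
    fun ξ hξ => ?_⟩
  · intro ξ hξ
    simp only [Finite.mem_toFinset, mem_ofPred_eq]
    by_cases h1 : ξ < α
    · refine ⟨h1, fun h2 => hξ ?_⟩
      rw [if_pos h1, h2, sub_self]
    · rw [if_neg h1] at hξ
      exact absurd rfl hξ
  · intro ξ hξ
    by_contra h1
    rw [Finsupp.mem_support_iff, Finsupp.onFinset_apply, if_neg h1] at hξ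
    exact hξ rfl
  · simp only [val, Finsupp.onFinset_apply, if_pos hξ]
    ring

lemma val_finite (p : Node) : {ξ | ξ < p.lv ∧ val f p ξ ≠ f p.lv ξ}.Finite := by
  refine p.c.support.finite_toSet.subset ?_
  rintro ξ ⟨_, h⟩
  rw [Finset.mem_coe, Finsupp.mem_support_iff]
  intro h1
  apply h
  rw [val, h1, add_zero]

/-- `f` is coherent below `α` -/
def CohB (f : Om → Om → ℤ) (α : Om) : Prop :=
  ∀ β < α, ∀ γ < β, {ξ | ξ < γ ∧ f β ξ ≠ f γ ξ}.Finite

lemma extend_node {α : Om} (hc : CohB f α) {p : Node} {γ : Om} (hγ : γ < α) (hp : p.lv ≤ γ) :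
    ∃ q : Node, q.lv = γ ∧ le f p q := by
  classical
  have h : {ξ | ξ < γ ∧ (if ξ < p.lv then val f p ξ else f γ ξ) ≠ f γ ξ}.Finite := by
    rcases hp.eq_or_lt with h1 | h1
    · subst h1
      refine (val_finite (f := f) p).subset ?_
      rintro ξ ⟨h2, h3⟩
      rw [if_pos h2] at h3
      exact ⟨h2, h3⟩
    · refine ((val_finite (f := f) p).union (hc γ hγ p.lv h1)).subset ?_
      rintro ξ ⟨h2, h3⟩
      by_cases h4 : ξ < p.lv
      · rw [if_pos h4] at h3
        by_cases h5 : val f p ξ = f p.lv ξ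
        · right
          rw [h5] at h3
          exact ⟨h4, fun h6 => h3 h6.symm⟩
        · exact Or.inl ⟨h4, h5⟩
      · rw [if_neg h4] at h3
        exact absurd rfl h3
  obtain ⟨q, hq1, hq2⟩ := exists_node h
  refine ⟨q, hq1, hq1.symm ▸ hp, fun ξ hξ => ?_⟩
  rw [hq2 ξ (hξ.trans_le hp), if_pos hξ]

lemma countable_finsupp (α : Om) : {c : Om →₀ ℤ | ∀ ξ ∈ c.support, ξ < α}.Countable := by
  have h1 : (Iio α).Countable := Set.countable_coe_iff.1 (countable_Iio α)
  have h2 : {t : Set (Om × ℤ) | t.Finite ∧ t ⊆ Iio α ×ˢ Set.univ}.Countable :=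
    Set.countable_ofPred_finite_subset (h1.prod countable_univ)
  refine Set.countable_of_injective_of_countable_image
    (f := fun c : Om →₀ ℤ => (c.graph : Set (Om × ℤ))) ?_ (h2.mono ?_)
  · intro c _ d _ h
    exact Finsupp.graph_injective Om ℤ (Finset.coe_injective h)
  · rintro _ ⟨c, hc, rfl⟩
    refine ⟨Finset.finite_toSet _, ?_⟩
    rintro ⟨ξ, z⟩ h
    rw [Finset.mem_coe, Finsupp.mem_graph_iff] at h
    refine ⟨hc ξ ?_, trivial⟩
    rw [Finsupp.mem_support_iff, h.1]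
    exact h.2

lemma countable_level (α : Om) : {p : Node | p.lv < α}.Countable := by
  have h1 : (Iio α).Countable := Set.countable_coe_iff.1 (countable_Iio α)
  refine Set.countable_of_injective_of_countable_image
    (f := fun p : Node => (p.lv, p.c)) ?_ ((h1.prod (countable_finsupp α)).mono ?_)
  · rintro ⟨a, c, hc⟩ _ ⟨b, d, hd⟩ _ h
    simp only [Prod.mk.injEq] at h
    obtain ⟨rfl, rfl⟩ := h
    rfl
  · rintro _ ⟨p, hp, rfl⟩
    exact ⟨hp, fun ξ hξ => (p.supp ξ hξ).trans hp⟩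

/-- the extension lemma -/
lemma exists_limit {α : Om} (hα : ∃ β, β < α) (hc : CohB f α) (D : Set Node)
    (hD : ∀ p : Node, p.lv < α → ∃ q d : Node, q.lv < α ∧ le f p q ∧ d ∈ D ∧ le f d q) :
    ∃ h : Om → ℤ, (∀ β < α, {ξ | ξ < β ∧ h ξ ≠ f β ξ}.Finite) ∧
      ∀ c : Om →₀ ℤ, ∃ d ∈ D, d.lv < α ∧ ∀ ξ < d.lv, val f d ξ = h ξ + c ξ := by
  classical
  obtain ⟨β0, hβ0⟩ := hα
  -- one step
  have hstep : ∀ (t : {t : Node // t.lv < α}) (c : Om →₀ ℤ) (b : Iio α),
      ∃ t' : {t : Node // t.lv < α}, le f t.1 t'.1 ∧ b.1 ≤ t'.1.lv ∧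
        ∃ d ∈ D, d.lv ≤ t'.1.lv ∧ ∀ ξ < d.lv, val f d ξ = val f t'.1 ξ + c ξ := by
    rintro ⟨t, ht⟩ c ⟨b, hb⟩
    obtain ⟨p, hp1, hp2⟩ := exists_node (f := f) (α := t.lv) (g := fun ξ => val f t ξ + c ξ) (by
      refine ((val_finite (f := f) t).union c.support.finite_toSet).subset ?_
      rintro ξ ⟨h1, h2⟩
      by_cases h3 : c ξ = 0
      · left
        simp only [h3, add_zero] at h2
        exact ⟨h1, h2⟩
      · right
        exact Finset.mem_coe.2 (Finsupp.mem_support_iff.2 h3))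
    obtain ⟨q, d, hq, hpq, hdD, hdq⟩ := hD p (hp1.symm ▸ ht)
    obtain ⟨t1, ht1, ht2⟩ := exists_node (f := f) (α := q.lv) (g := fun ξ => val f q ξ - c ξ) (by
      refine ((val_finite (f := f) q).union c.support.finite_toSet).subset ?_
      rintro ξ ⟨h1, h2⟩
      by_cases h3 : c ξ = 0
      · left
        simp only [h3, sub_zero] at h2
        exact ⟨h1, h2⟩
      · right
        exact Finset.mem_coe.2 (Finsupp.mem_support_iff.2 h3))
    obtain ⟨t2, ht3, ht4⟩ := extend_node (p := t1) (γ := max q.lv b) hc (max_lt hq hb)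
      (ht1.symm ▸ le_max_left _ _)
    have hlv : t.lv ≤ q.lv := hp1 ▸ hpq.1
    refine ⟨⟨t2, ht3.symm ▸ max_lt hq hb⟩, ?_, ht3.symm ▸ le_max_right _ _, d, hdD, ?_, ?_⟩
    · refine le_trans (q := t1) ⟨ht1.symm ▸ hlv, fun ξ hξ => ?_⟩ ht4
      rw [ht2 ξ (hξ.trans_le hlv), ← hpq.2 ξ (hp1.symm ▸ hξ), hp2 ξ hξ]
      ring
    · show d.lv ≤ t2.lv
      rw [ht3]
      exact hdq.1.trans (le_max_left _ _)
    · intro ξ hξ
      have h1 : ξ < q.lv := hξ.trans_le hdq.1
      show val f d ξ = val f t2 ξ + c ξ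
      rw [← ht4.2 ξ (ht1.symm ▸ h1), ht2 ξ h1, hdq.2 ξ hξ]
      ring
  choose st hst1 hst2 hst3 using hstep
  -- enumerations
  have hcc : {c : Om →₀ ℤ | ∀ ξ ∈ c.support, ξ < α}.Countable := countable_finsupp α
  obtain ⟨cN, hcN⟩ := hcc.exists_eq_range ⟨0, by simp⟩
  have : Countable (Iio α) := countable_Iio α
  have : Nonempty (Iio α) := ⟨⟨β0, hβ0⟩⟩
  obtain ⟨bN, hbN⟩ := exists_surjective_nat (Iio α)
  -- both enumerations at once
  obtain ⟨t0, ht0, -⟩ := exists_node (f := f) (α := β0) (g := f β0) (by simp)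
  let t : ℕ → {t : Node // t.lv < α} := fun n =>
    Nat.rec ⟨t0, ht0.symm ▸ hβ0⟩ (fun n s => st s (cN n) (bN n)) n
  have htle : ∀ m n, m ≤ n → le f (t m).1 (t n).1 := by
    intro m n hmn
    induction n, hmn using Nat.le_induction with
    | base => exact le_refl _
    | succ n _ ih => exact le_trans ih (hst1 (t n) (cN n) (bN n))
  let h : Om → ℤ := fun ξ => if hx : ∃ n, ξ < (t n).1.lv then val f (t (Nat.find hx)).1 ξ else 0
  have hh : ∀ n ξ, ξ < (t n).1.lv → h ξ = val f (t n).1 ξ := by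
    intro n ξ hξ
    have hx : ∃ n, ξ < (t n).1.lv := ⟨n, hξ⟩
    show (if hx : ∃ n, ξ < (t n).1.lv then val f (t (Nat.find hx)).1 ξ else 0) = _
    rw [dif_pos hx]
    exact (htle _ _ (Nat.find_min' hx hξ)).2 ξ (Nat.find_spec hx)
  refine ⟨h, fun β hβ => ?_, fun c => ?_⟩
  · obtain ⟨n, hn⟩ := hbN ⟨β, hβ⟩
    have h1 : β ≤ (t (n + 1)).1.lv := by
      have h2 : (bN n).1 ≤ (t (n + 1)).1.lv := hst2 (t n) (cN n) (bN n)
      rw [hn] at h2
      exact h2
    have h3 : {ξ | ξ < β ∧ f (t (n + 1)).1.lv ξ ≠ f β ξ}.Finite := by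
      rcases h1.eq_or_lt with h4 | h4
      · rw [← h4]; simp
      · exact hc _ (t (n + 1)).2 β h4
    refine ((val_finite (f := f) (t (n + 1)).1).union h3).subset ?_
    rintro ξ ⟨h5, h6⟩
    rw [hh (n + 1) ξ (h5.trans_le h1)] at h6
    by_cases h7 : val f (t (n + 1)).1 ξ = f (t (n + 1)).1.lv ξ
    · right
      rw [h7] at h6
      exact ⟨h5, h6⟩
    · exact Or.inl ⟨h5.trans_le h1, h7⟩
  · have h1 : c.filter (fun ξ => ξ < α) ∈ {c : Om →₀ ℤ | ∀ ξ ∈ c.support, ξ < α} := by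
      intro ξ hξ
      rw [Finsupp.support_filter, Finset.mem_filter] at hξ
      exact hξ.2
    rw [hcN] at h1
    obtain ⟨n, hn⟩ := h1
    obtain ⟨d, hdD, hd1, hd2⟩ := hst3 (t n) (cN n) (bN n)
    have hd3 : d.lv ≤ (t (n + 1)).1.lv := hd1
    refine ⟨d, hdD, hd3.trans_lt (t (n + 1)).2, fun ξ hξ => ?_⟩
    have hd4 : val f d ξ = val f (t (n + 1)).1 ξ + cN n ξ := hd2 ξ hξ
    rw [hd4, hn, Finsupp.filter_apply, if_pos (hξ.trans_le (hd3.trans (t (n + 1)).2.le)),
      hh (n + 1) ξ (hξ.trans_le hd3)]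

end Pool.Agent.H3R4.LD
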